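import Pool.Agent.H7.OPP.Stmts

/-!
# OPP, module R2: the point `c`
-/

set_option autoImplicit false

open scoped Topology ComplexConjugate
open Filter

namespace Pool.OPP

/-- eigenvector property -/
def R2_Q (θ : Anti) (x : SS) (ξ : II → ℂ) (h : C(SS, ℂ)) (z : ℂ) : Prop :=
  Cm θ x (sc h) ∧ (RR θ x (sc h)).mulVec ξ = z • ξ

theorem R2_Q_add (hr : SRr0) (hg : SGen) (θ : Anti) (x : SS) (ξ : II → ℂ) (h h' : C(SS, ℂ))
    (z z' : ℂ) (H : R2_Q θ x ξ h z) (H' : R2_Q θ x ξ h' z') :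
    R2_Q θ x ξ (h + h') (z + z') := by
  obtain ⟨_, _, _, _, _, _, _, _, _, _, _, _, _, _, _, hadd, _⟩ := hg
  have h1 := (hr θ x).1 (sc h) (sc h') H.1 H'.1
  refine ⟨?_, ?_⟩
  · rw [hadd]; exact h1.2.2.2
  · rw [hadd, h1.2.2.1, Matrix.add_mulVec, H.2, H'.2, add_smul]

theorem R2_Q_mul (hr : SRr0) (hg : SGen) (θ : Anti) (x : SS) (ξ : II → ℂ) (h h' : C(SS, ℂ))
    (z z' : ℂ) (H : R2_Q θ x ξ h z) (H' : R2_Q θ x ξ h' z') :
    R2_Q θ x ξ (h * h') (z * z') := by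
  obtain ⟨_, _, _, _, _, _, _, _, _, _, _, _, _, _, hmul, _⟩ := hg
  have h1 := (hr θ x).1 (sc h) (sc h') H.1 H'.1
  refine ⟨?_, ?_⟩
  · rw [hmul]; exact h1.2.1
  · rw [hmul, h1.1, ← Matrix.mulVec_mulVec, H'.2, Matrix.mulVec_smul, H.2, smul_smul, mul_comm]

theorem R2_Q_smul (hr : SRr0) (hg : SGen) (θ : Anti) (x : SS) (ξ : II → ℂ) (h : C(SS, ℂ))
    (z c : ℂ) (H : R2_Q θ x ξ h z) :
    R2_Q θ x ξ (c • h) (c * z) := by
  obtain ⟨_, _, _, _, _, _, _, _, _, _, _, _, _, _, _, _, hsmul, _⟩ := hg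
  have h1 := ((hr θ x).2.1 (sc h) H.1).2.2 c
  refine ⟨?_, ?_⟩
  · rw [hsmul]; exact h1.2
  · rw [hsmul, h1.1, Matrix.smul_mulVec, H.2, smul_smul]

theorem R2_Q_one (hr : SRr0) (hg : SGen) (θ : Anti) (x : SS) (ξ : II → ℂ) :
    R2_Q θ x ξ 1 1 := by
  obtain ⟨_, _, _, _, _, _, _, _, _, _, _, _, _, _, _, _, _, _, hone, _⟩ := hg
  have h1 := (hr θ x).2.2.1
  refine ⟨?_, ?_⟩
  · rw [hone]; exact h1.1
  · rw [hone, h1.2, Matrix.one_mulVec, one_smul]

theorem R2_Q_zero (hr : SRr0) (hg : SGen) (θ : Anti) (x : SS) (ξ : II → ℂ) :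
    R2_Q θ x ξ 0 0 := by
  have := R2_Q_smul hr hg θ x ξ 1 1 0 (R2_Q_one hr hg θ x ξ)
  have e : (0 : ℂ) • (1 : C(SS, ℂ)) = 0 := by
    ext y
    show (0 : ℂ) * _ = 0
    rw [zero_mul]
  rw [e, zero_mul] at this
  exact this

theorem R2_Q_pow (hr : SRr0) (hg : SGen) (θ : Anti) (x : SS) (ξ : II → ℂ) (h : C(SS, ℂ))
    (z : ℂ) (H : R2_Q θ x ξ h z) (n : ℕ) : R2_Q θ x ξ (h ^ n) (z ^ n) := by
  induction n with
  | zero => simpa using R2_Q_one hr hg θ x ξ
  | succ n ih =>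
    rw [pow_succ, pow_succ]
    exact R2_Q_mul hr hg θ x ξ _ _ _ _ ih H

theorem R2_Q_sum (hr : SRr0) (hg : SGen) (θ : Anti) (x : SS) (ξ : II → ℂ) {ι : Type}
    (s : Finset ι) (h : ι → C(SS, ℂ)) (z : ι → ℂ) (H : ∀ i ∈ s, R2_Q θ x ξ (h i) (z i)) :
    R2_Q θ x ξ (∑ i ∈ s, h i) (∑ i ∈ s, z i) := by
  classical
  induction s using Finset.induction_on with
  | empty => simpa using R2_Q_zero hr hg θ x ξ
  | insert a s ha ih =>
    rw [Finset.sum_insert ha, Finset.sum_insert ha]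
    exact R2_Q_add hr hg θ x ξ _ _ _ _ (H a (Finset.mem_insert_self _ _))
      (ih fun i hi => H i (Finset.mem_insert_of_mem hi))

open Polynomial in
theorem R2_Q_poly (hr : SRr0) (hg : SGen) (θ : Anti) (x : SS) (ξ : II → ℂ) (h : C(SS, ℂ))
    (z : ℂ) (H : R2_Q θ x ξ h z) (p : ℝ[X]) :
    R2_Q θ x ξ (∑ i ∈ Finset.range (p.natDegree + 1), ((p.coeff i : ℝ) : ℂ) • h ^ i)
      (∑ i ∈ Finset.range (p.natDegree + 1), ((p.coeff i : ℝ) : ℂ) * z ^ i) :=
  R2_Q_sum hr hg θ x ξ _ _ _ fun i _ => R2_Q_smul hr hg θ x ξ _ _ _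
    (R2_Q_pow hr hg θ x ξ h z H i)

theorem R2_Q_lim (hr : SRr0) (hg : SGen) (θ : Anti) (x : SS) (ξ : II → ℂ)
    (h : ℕ → C(SS, ℂ)) (z : ℕ → ℂ) (h' : C(SS, ℂ)) (z' : ℂ)
    (H : ∀ n, R2_Q θ x ξ (h n) (z n)) (hh' : Tendsto h atTop (𝓝 h'))
    (hz : Tendsto z atTop (𝓝 z')) : R2_Q θ x ξ h' z' := by
  obtain ⟨_, _, _, _, _, _, _, _, _, _, _, _, _, _, _, hadd, hsmul, _, _, hnorm, _⟩ := hg
  have hsub : ∀ a b, sc (a - b) = sc a - sc b := by
    intro a b
    have e : a - b = a + (-1 : ℂ) • b := by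
      ext y
      show a y - b y = a y + (-1 : ℂ) * b y
      ring
    rw [e, hadd, hsmul, neg_one_smul, ← sub_eq_add_neg]
  have hT : Tendsto (fun n => sc (h n)) atTop (𝓝 (sc h')) := by
    rw [tendsto_iff_norm_sub_tendsto_zero]
    have h0 : Tendsto (fun n => (cI : ℝ) * ‖h n - h'‖) atTop (𝓝 0) := by
      have := (tendsto_iff_norm_sub_tendsto_zero.1 hh').const_mul (cI : ℝ)
      simpa using this
    refine squeeze_zero (fun n => norm_nonneg _) (fun n => ?_) h0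
    rw [← hsub]
    exact hnorm _
  have hC : Cm θ x (sc h') := (hr θ x).2.2.2.2 _ _ (fun n => (H n).1) hT
  refine ⟨hC, ?_⟩
  have hE : ∀ i j, Tendsto (fun n => RR θ x (sc (h n)) i j) atTop (𝓝 (RR θ x (sc h') i j)) := by
    intro i j
    rw [tendsto_iff_norm_sub_tendsto_zero]
    have h0 := tendsto_iff_norm_sub_tendsto_zero.1 hT
    refine squeeze_zero (fun n => norm_nonneg _) (fun n => ?_) h0
    have h1 := ((hr θ x).2.1 (sc h') hC).2.2 (-1)
    have h2 := (hr θ x).1 (sc (h n)) ((-1 : ℂ) • sc h') (H n).1 h1.2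
    have h3 : RR θ x (sc (h n)) i j - RR θ x (sc h') i j
        = RR θ x (sc (h n) - sc h') i j := by
      have e : sc (h n) - sc h' = sc (h n) + (-1 : ℂ) • sc h' := by
        rw [neg_one_smul, sub_eq_add_neg]
      rw [e, h2.2.2.1, h1.1, neg_one_smul, Matrix.add_apply, Matrix.neg_apply, sub_eq_add_neg]
    rw [h3]
    have h4 : sc (h n) - sc h' ∈ AA := sub_mem (H n).1.1 hC.1
    exact (hr θ x).2.2.2.1 _ h4 i j
  funext i
  have hL : Tendsto (fun n => (RR θ x (sc (h n))).mulVec ξ i) atTop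
      (𝓝 ((RR θ x (sc h')).mulVec ξ i)) := by
    simp only [Matrix.mulVec, dotProduct]
    exact tendsto_finsetSum _ fun j _ => (hE i j).mul_const _
  have hR : Tendsto (fun n => (RR θ x (sc (h n))).mulVec ξ i) atTop (𝓝 ((z' • ξ) i)) := by
    have : ∀ n, (RR θ x (sc (h n))).mulVec ξ i = z n * ξ i := by
      intro n
      rw [(H n).2]; rfl
    simp only [this]
    exact hz.mul_const _
  exact tendsto_nhds_unique hL hR

/-- the function `|⟨c_w, y⟩|²` on the base -/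
noncomputable def R2_hw (w : Fin hh) : C(SS, ℂ) :=
  ∑ k : Fin 3, ∑ l : Fin 3, (conj ((cc w : EuclideanSpace ℂ (Fin 3)) k) *
    (cc w : EuclideanSpace ℂ (Fin 3)) l) • (yf k * star (yf l))

theorem R2_inner_sq (a y : EuclideanSpace ℂ (Fin 3)) :
    ((‖inner ℂ a y‖ ^ 2 : ℝ) : ℂ) = ∑ k : Fin 3, ∑ l : Fin 3,
      (conj (a k) * a l) * (y k * conj (y l)) := by
  have h1 : inner ℂ a y = ∑ k : Fin 3, y k * conj (a k) := by
    rw [PiLp.inner_apply]
    rfl
  rw [← Complex.normSq_eq_norm_sq, Complex.normSq_eq_conj_mul_self, h1, map_sum,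
    Finset.sum_mul_sum, Finset.sum_comm]
  refine Finset.sum_congr rfl fun k _ => Finset.sum_congr rfl fun l _ => ?_
  rw [map_mul, Complex.conj_conj]
  ring

theorem R2_hw_apply (w : Fin hh) (x : SS) : R2_hw w x =
    ((‖inner ℂ (cc w : EuclideanSpace ℂ (Fin 3)) (y0 x)‖ ^ 2 : ℝ) : ℂ) := by
  rw [R2_inner_sq]
  unfold R2_hw
  rw [ContinuousMap.sum_apply]
  refine Finset.sum_congr rfl fun k _ => ?_
  rw [ContinuousMap.sum_apply]
  rfl

/-- the function of `|⟨c_w,y⟩|²` that gives `β_w²` -/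
noncomputable def R2_F (t : ℝ) : ℝ := max 0 (4 / 5 - Real.sqrt t) ^ 2

theorem R2_F_cont : Continuous R2_F :=
  (continuous_const.max (continuous_const.sub Real.continuous_sqrt)).pow 2

theorem R2_norm_y0 (x : SS) : ‖y0 x‖ = 1 := norm_eq_of_mem_sphere (x 0)

theorem R2_norm_cc (w : Fin hh) : ‖(cc w : EuclideanSpace ℂ (Fin 3))‖ = 1 :=
  norm_eq_of_mem_sphere (cc w)

theorem R2_mem_Icc (w : Fin hh) (y : EuclideanSpace ℂ (Fin 3)) (hy : ‖y‖ = 1) :
    ‖inner ℂ (cc w : EuclideanSpace ℂ (Fin 3)) y‖ ^ 2 ∈ Set.Icc (0 : ℝ) 1 := by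
  refine ⟨by positivity, ?_⟩
  have h := norm_inner_le_norm (𝕜 := ℂ) (cc w : EuclideanSpace ℂ (Fin 3)) y
  rw [R2_norm_cc, hy, one_mul] at h
  exact pow_le_one₀ (norm_nonneg _) h

theorem R2_bet_sq (w : Fin hh) (y : EuclideanSpace ℂ (Fin 3)) :
    bet w y ^ 2 = R2_F (‖inner ℂ (cc w : EuclideanSpace ℂ (Fin 3)) y‖ ^ 2) := by
  unfold R2_F bet
  rw [Real.sqrt_sq (norm_nonneg _)]

/-- the functional calculus -/
theorem R2_fc (hr : SRr0) (hg : SGen) (θ : Anti) (x : SS) (ξ : II → ℂ)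
    (c : EuclideanSpace ℂ (Fin 3)) (hc1 : ‖c‖ = 1)
    (hc : ∀ k l, R2_Q θ x ξ (yf k * star (yf l)) (c k * conj (c l))) (w : Fin hh) :
    R2_Q θ x ξ (bf w * bf w) (((bet w c : ℝ) : ℂ) ^ 2) := by
  set t : ℝ := ‖inner ℂ (cc w : EuclideanSpace ℂ (Fin 3)) c‖ ^ 2 with ht
  have h1 : R2_Q θ x ξ (R2_hw w) ((t : ℝ) : ℂ) := by
    rw [ht, R2_inner_sq]
    exact R2_Q_sum hr hg θ x ξ _ _ _ fun k _ => R2_Q_sum hr hg θ x ξ _ _ _ fun l _ =>
      R2_Q_smul hr hg θ x ξ _ _ _ (hc k l)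
  have h2 : ∀ n : ℕ, ∃ p : Polynomial ℝ, ∀ s ∈ Set.Icc (0 : ℝ) 1,
      |p.eval s - R2_F s| < 1 / ((n : ℝ) + 1) := fun n =>
    exists_polynomial_near_of_continuousOn 0 1 R2_F R2_F_cont.continuousOn _ (by positivity)
  choose p hp using h2
  have hev : ∀ (q : Polynomial ℝ) (s : ℝ),
      ∑ i ∈ Finset.range (q.natDegree + 1), ((q.coeff i : ℝ) : ℂ) * ((s : ℝ) : ℂ) ^ i
        = ((q.eval s : ℝ) : ℂ) := by
    intro q s
    rw [Polynomial.eval_eq_sum_range]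
    push_cast
    rfl
  refine R2_Q_lim hr hg θ x ξ _ _ _ _
    (fun n => R2_Q_poly hr hg θ x ξ (R2_hw w) _ h1 (p n)) ?_ ?_
  · rw [tendsto_iff_norm_sub_tendsto_zero]
    refine squeeze_zero (fun n => norm_nonneg _) (fun n => ?_)
      tendsto_one_div_add_atTop_nhds_zero_nat
    rw [ContinuousMap.norm_le _ (by positivity)]
    intro x'
    have e1 : (∑ i ∈ Finset.range ((p n).natDegree + 1),
        (((p n).coeff i : ℝ) : ℂ) • R2_hw w ^ i) x' =
        (((p n).eval (‖inner ℂ (cc w : EuclideanSpace ℂ (Fin 3)) (y0 x')‖ ^ 2) : ℝ) : ℂ) := by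
      rw [ContinuousMap.sum_apply, ← hev]
      refine Finset.sum_congr rfl fun i _ => ?_
      rw [ContinuousMap.smul_apply, ContinuousMap.pow_apply, R2_hw_apply, smul_eq_mul]
    have e2 : (bf w * bf w) x' =
        ((R2_F (‖inner ℂ (cc w : EuclideanSpace ℂ (Fin 3)) (y0 x')‖ ^ 2) : ℝ) : ℂ) := by
      rw [← R2_bet_sq]
      show ((bet w (y0 x') : ℝ) : ℂ) * ((bet w (y0 x') : ℝ) : ℂ) = _
      push_cast
      ring
    rw [ContinuousMap.sub_apply, e1, e2, ← Complex.ofReal_sub, Complex.norm_real,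
      Real.norm_eq_abs]
    exact le_of_lt (hp n _ (R2_mem_Icc w _ (R2_norm_y0 x')))
  · rw [tendsto_iff_norm_sub_tendsto_zero]
    refine squeeze_zero (fun n => norm_nonneg _) (fun n => ?_)
      tendsto_one_div_add_atTop_nhds_zero_nat
    have e3 : (((bet w c : ℝ) : ℂ)) ^ 2 = ((R2_F t : ℝ) : ℂ) := by
      rw [ht, ← R2_bet_sq]
      push_cast
      rfl
    rw [hev, e3, ← Complex.ofReal_sub, Complex.norm_real, Real.norm_eq_abs]
    exact le_of_lt (hp n _ (R2_mem_Icc w _ hc1))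

theorem R2_mulVec_vec (a b ξ : II → ℂ) (M : Matrix II II ℂ)
    (hM : ∀ i j, M i j = a i * conj (b j)) : M.mulVec ξ = ip b ξ • a := by
  funext i
  simp only [Matrix.mulVec, dotProduct, hM, Pi.smul_apply, smul_eq_mul, ip, Finset.sum_mul]
  refine Finset.sum_congr rfl fun j _ => ?_
  ring

theorem R2_ip_smul_right (a b : II → ℂ) (c : ℂ) : ip a (c • b) = c * ip a b := by
  simp only [ip, Pi.smul_apply, smul_eq_mul, Finset.mul_sum]
  refine Finset.sum_congr rfl fun j _ => ?_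
  ring

theorem R2_ip_smul_left (a b : II → ℂ) (c : ℂ) : ip (c • a) b = conj c * ip a b := by
  simp only [ip, Pi.smul_apply, smul_eq_mul, Finset.mul_sum, map_mul]
  refine Finset.sum_congr rfl fun j _ => ?_
  ring

theorem R2_ip_conj (a b : II → ℂ) : conj (ip a b) = ip b a := by
  simp only [ip, map_sum, map_mul, Complex.conj_conj]
  refine Finset.sum_congr rfl fun j _ => ?_
  ring

theorem R2_ip_star (M : Matrix II II ℂ) (a b : II → ℂ) :
    ip a ((star M).mulVec b) = ip (M.mulVec a) b := by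
  simp only [ip, Matrix.mulVec, dotProduct, Matrix.star_apply, map_sum, map_mul, Finset.mul_sum,
    Finset.sum_mul]
  rw [Finset.sum_comm]
  refine Finset.sum_congr rfl fun j _ => Finset.sum_congr rfl fun i _ => ?_
  show _ = conj (M j i) * conj (a i) * b j
  show conj (a i) * (conj (M j i) * b j) = _
  ring

theorem R2_norm (hr : SRr0) (hg : SGen) (θ : Anti) (x : SS) (ξ : II → ℂ) (hξ : ip ξ ξ = 1)
    (c : Fin 3 → ℂ) (hc : ∀ k l, R2_Q θ x ξ (yf k * star (yf l)) (c k * conj (c l))) :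
    ∑ k, ‖c k‖ ^ 2 = 1 := by
  have hg' := hg
  obtain ⟨_, _, _, _, _, _, _, _, _, hH, _, _, _, _, _, hadd, _⟩ := hg'
  have h1 := R2_Q_sum hr hg θ x ξ Finset.univ _ _ fun k _ => hc k k
  have h2 : sc (∑ k : Fin 3, yf k * star (yf k)) = 1 := by
    rw [Fin.sum_univ_three, hadd, hadd, ← hH, Fin.sum_univ_three]
    rfl
  have h3 := h1.2
  rw [h2, (hr θ x).2.2.1.2, Matrix.one_mulVec] at h3
  have h4 : ip ξ ξ = (∑ k, c k * conj (c k)) * ip ξ ξ := by
    conv_lhs => rw [h3, R2_ip_smul_right]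
    rw [← h3]
  rw [hξ, mul_one] at h4
  have h5 : ((∑ k, ‖c k‖ ^ 2 : ℝ) : ℂ) = 1 := by
    rw [h4]
    push_cast
    refine Finset.sum_congr rfl fun k _ => ?_
    rw [Complex.mul_conj, Complex.normSq_eq_norm_sq]
    push_cast
    rfl
  exact_mod_cast h5

theorem sR2 (hb : SR1b) (hr : SRr0) (hg : SGen) : SR2 := by
  intro θ x hx ξ hξ hE
  have hg' := hg
  obtain ⟨hgen, _, _, _, _, _, hYY, _, _, _, _, hY1, hB1, hBB, _⟩ := hg'
  have cG : ∀ g, Cm θ x (gen g) := fun g => ⟨(hgen g).2, hx g⟩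
  have cE : Cm θ x (gE (bas 0) (bas 0)) := by
    have := cG (Sum.inl (bas 0, bas 0))
    have e : gen (Sum.inl (bas 0, bas 0)) = gE (bas 0) (bas 0) := by
      simp [gen, linked]
    rwa [e] at this
  have cS : Cm θ x (gE istar istar) := by
    have := cG (Sum.inl (istar, istar))
    have e : gen (Sum.inl (istar, istar)) = gE istar istar := by
      simp [gen, linked]
    rwa [e] at this
  have cY : ∀ k, Cm θ x (gY k) := by
    intro k
    have := cG (Sum.inr (Sum.inl (k, false)))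
    have e : gen (Sum.inr (Sum.inl (k, false))) = gY k := by
      simp [gen]
    rwa [e] at this
  have cB : ∀ w, Cm θ x (gB w) := by
    intro w
    have := cG (Sum.inr (Sum.inr (Sum.inl (w, false))))
    have e : gen (Sum.inr (Sum.inr (Sum.inl (w, false)))) = gB w := by
      simp [gen]
    rwa [e] at this
  have cH : ∀ k l, Cm θ x (gH k l) := by
    intro k l
    have := cG (Sum.inr (Sum.inr (Sum.inr (k, l))))
    have e : gen (Sum.inr (Sum.inr (Sum.inr (k, l)))) = gH k l := by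
      simp [gen]
    rwa [e] at this
  obtain ⟨ξ', hξ', hE'⟩ := hb θ x hx (bas 0)
  obtain ⟨η, hη, hS'⟩ := hb θ x hx istar
  have e1 : ∀ v, (RR θ x (gE (bas 0) (bas 0))).mulVec v = ip ξ' v • ξ' := fun v =>
    R2_mulVec_vec _ _ _ _ hE'
  have e2 : ip ξ' ξ • ξ' = ξ := by rw [← e1, hE]
  have e3 : ∀ v, (RR θ x (gE (bas 0) (bas 0))).mulVec v = ip ξ v • ξ := by
    intro v
    rw [e1]
    set z := ip ξ' ξ with hz
    have hzz : conj z * z = 1 := by
      have : ip (z • ξ') (z • ξ') = 1 := by rw [e2, hξ]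
      rw [R2_ip_smul_left, R2_ip_smul_right, hξ', mul_one] at this
      exact this
    rw [← e2, R2_ip_smul_left, smul_smul]
    congr 1
    calc ip ξ' v = (conj z * z) * ip ξ' v := by rw [hzz, one_mul]
      _ = _ := by ring
  have eY : ∀ k, (RR θ x (gY k)).mulVec ξ = ip η ((RR θ x (gY k)).mulVec ξ) • η := by
    intro k
    have h1 := ((hr θ x).1 _ _ cS (cY k)).1
    rw [(hY1 k).2] at h1
    conv_lhs => rw [h1, ← Matrix.mulVec_mulVec, R2_mulVec_vec _ _ _ _ hS']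
  have eYs : ∀ l, (star (RR θ x (gY l))).mulVec η
      = conj (ip η ((RR θ x (gY l)).mulVec ξ)) • ξ := by
    intro l
    have h1 := ((hr θ x).1 _ _ (cY l) cE).1
    rw [(hY1 l).1] at h1
    have hEs : star (RR θ x (gE (bas 0) (bas 0))) = RR θ x (gE (bas 0) (bas 0)) := by
      ext a b
      rw [Matrix.star_apply, hE', hE']
      show conj (ξ' b * conj (ξ' a)) = _
      rw [map_mul, Complex.conj_conj, mul_comm]
    have h2 : star (RR θ x (gY l)) = RR θ x (gE (bas 0) (bas 0)) * star (RR θ x (gY l)) := by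
      conv_lhs => rw [h1, star_mul, hEs]
    rw [h2, ← Matrix.mulVec_mulVec, e3, R2_ip_star]
    congr 1
    rw [R2_ip_conj]
  have eH : ∀ k l, (RR θ x (gH k l)).mulVec ξ =
      (ip η ((RR θ x (gY k)).mulVec ξ) * conj (ip η ((RR θ x (gY l)).mulVec ξ))) • ξ := by
    intro k l
    have h1 := ((hr θ x).1 _ _ (cH k l) cE).1
    have h2 := (hr θ x).2.1 _ (cY l)
    have h3 := ((hr θ x).1 _ _ h2.2.1 (cY k)).1
    rw [hYY k l] at h3
    calc (RR θ x (gH k l)).mulVec ξ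
        = (RR θ x (gH k l)).mulVec ((RR θ x (gE (bas 0) (bas 0))).mulVec ξ) := by rw [hE]
      _ = (RR θ x (gH k l * gE (bas 0) (bas 0))).mulVec ξ := by
          rw [h1, Matrix.mulVec_mulVec]
      _ = (star (RR θ x (gY l))).mulVec ((RR θ x (gY k)).mulVec ξ) := by
          rw [h3, h2.1, Matrix.mulVec_mulVec]
      _ = _ := by
          conv_lhs => rw [eY k, Matrix.mulVec_smul, eYs l, smul_smul]
  refine ⟨⟨fun k => ip η ((RR θ x (gY k)).mulVec ξ), ?_, eH⟩, ?_⟩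
  · exact R2_norm hr hg θ x ξ hξ _ fun k l => ⟨cH k l, eH k l⟩
  · intro c hc w
    have hQ : ∀ k l, R2_Q θ x ξ (yf k * star (yf l)) (c k * conj (c l)) :=
      fun k l => ⟨cH k l, hc k l⟩
    have hn := R2_norm hr hg θ x ξ hξ _ hQ
    have hc1 : ‖c‖ = 1 := by
      rw [EuclideanSpace.norm_eq, hn, Real.sqrt_one]
    have hF := R2_fc hr hg θ x ξ c hc1 hQ w
    have h1 := (hr θ x).2.1 _ (cB w)
    have h2 := ((hr θ x).1 _ _ h1.2.1 (cB w)).1
    have h3 := ((hr θ x).1 _ _ hF.1 cE).1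
    rw [← R2_ip_star, Matrix.mulVec_mulVec, ← h1.1, ← h2, hBB, h3, ← Matrix.mulVec_mulVec, hE,
      hF.2, R2_ip_smul_right, hξ, mul_one]

end Pool.OPP
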