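import Pool.Agent.H7.OPP.Stmts

/-!
# OPP, module TH: elementary properties of an anti-automorphism
-/

set_option autoImplicit false

namespace Pool.OPP

theorem TH_one (θ : Anti) : θ.f 1 = 1 := by
  obtain ⟨u, hu⟩ := θ.f.surjective 1
  have h := θ.mul u 1
  rw [mul_one, hu, mul_one] at h
  exact h.symm

theorem TH_isUnit (θ : Anti) (x : AA) : IsUnit (θ.f x) ↔ IsUnit x := by
  constructor
  · intro h
    obtain ⟨b, hb1, hb2⟩ := isUnit_iff_exists.1 h
    obtain ⟨c, rfl⟩ := θ.f.surjective b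
    refine isUnit_iff_exists.2 ⟨c, ?_, ?_⟩
    · apply θ.f.injective
      rw [θ.mul, TH_one, hb2]
    · apply θ.f.injective
      rw [θ.mul, TH_one, hb1]
  · intro h
    obtain ⟨b, hb1, hb2⟩ := isUnit_iff_exists.1 h
    refine isUnit_iff_exists.2 ⟨θ.f b, ?_, ?_⟩
    · rw [← θ.mul, hb2, TH_one]
    · rw [← θ.mul, hb1, TH_one]

theorem TH_alg (θ : Anti) (r : ℂ) : θ.f (algebraMap ℂ AA r) = algebraMap ℂ AA r := by
  rw [Algebra.algebraMap_eq_smul_one, map_smul, TH_one]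

theorem TH_spec (θ : Anti) (x : AA) : spectrum ℂ (θ.f x) = spectrum ℂ x := by
  ext r
  rw [spectrum.mem_iff, spectrum.mem_iff, not_iff_not,
    ← TH_isUnit θ (algebraMap ℂ AA r - x), map_sub, TH_alg]

theorem TH_rad (θ : Anti) (x : AA) : spectralRadius ℂ (θ.f x) = spectralRadius ℂ x := by
  unfold spectralRadius
  rw [TH_spec]

theorem TH_nnnorm (θ : Anti) (x : AA) : ‖θ.f x‖₊ = ‖x‖₊ := by
  have h1 : ‖star x * x‖₊ = ‖x‖₊ * ‖x‖₊ := CStarRing.nnnorm_star_mul_self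
  have h2 : ‖θ.f x * star (θ.f x)‖₊ = ‖θ.f x‖₊ * ‖θ.f x‖₊ := by
    rw [CStarRing.nnnorm_self_mul_star]
  have e1 : spectralRadius ℂ (star x * x) = ‖star x * x‖₊ :=
    (IsSelfAdjoint.star_mul_self x).spectralRadius_eq_nnnorm
  have e2 : spectralRadius ℂ (θ.f x * star (θ.f x)) = ‖θ.f x * star (θ.f x)‖₊ :=
    (IsSelfAdjoint.mul_star_self (θ.f x)).spectralRadius_eq_nnnorm
  have e3 : θ.f (star x * x) = θ.f x * star (θ.f x) := by
    rw [θ.mul, θ.st]
  have e4 := TH_rad θ (star x * x)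
  rw [e3, e1, e2] at e4
  have e5 : ‖θ.f x * star (θ.f x)‖₊ = ‖star x * x‖₊ := by exact_mod_cast e4
  rw [h1, h2] at e5
  exact (mul_self_inj zero_le zero_le).1 e5

theorem TH_norm (θ : Anti) (x : AA) : ‖θ.f x‖ = ‖x‖ := by
  have := TH_nnnorm θ x
  exact congrArg NNReal.toReal this

theorem TH_th (θ : Anti) (b : BB) (h : b ∈ AA) : θ.th b = (θ.f ⟨b, h⟩ : BB) := by
  unfold Anti.th
  rw [dif_pos h]

theorem sTh : STh := by
  intro θ
  refine ⟨fun b hb => ⟨?_, ?_, ?_, ?_⟩, fun b hb b' hb' => ⟨?_, ?_⟩, ?_⟩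
  · rw [TH_th θ b hb]
    exact (θ.f ⟨b, hb⟩).2
  · rw [TH_th θ b hb]
    exact TH_norm θ ⟨b, hb⟩
  · rw [TH_th θ b hb, TH_th θ (star b) (star_mem hb)]
    have := θ.st ⟨b, hb⟩
    exact congrArg (fun z : AA => (z : BB)) this
  · intro c
    rw [TH_th θ b hb, TH_th θ (c • b) (SMulMemClass.smul_mem c hb)]
    have := θ.f.map_smul c ⟨b, hb⟩
    exact congrArg (fun z : AA => (z : BB)) this
  · rw [TH_th θ b hb, TH_th θ b' hb', TH_th θ (b * b') (mul_mem hb hb')]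
    have := θ.mul ⟨b, hb⟩ ⟨b', hb'⟩
    exact congrArg (fun z : AA => (z : BB)) this
  · rw [TH_th θ b hb, TH_th θ b' hb', TH_th θ (b + b') (add_mem hb hb')]
    have := θ.f.map_add ⟨b, hb⟩ ⟨b', hb'⟩
    exact congrArg (fun z : AA => (z : BB)) this
  · rw [TH_th θ 1 (one_mem AA)]
    have := TH_one θ
    exact congrArg (fun z : AA => (z : BB)) this

end Pool.OPP
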